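import Pool.Agent.H380.AG.Stm

/-!
# MP_937c79_an: the case of small dimension, from slicing, Frostman and the small ball bounds
-/

set_option autoImplicit false

open MeasureTheory Metric Set Filter Topology
open scoped ENNReal RealInnerProductSpace

namespace Pool.Agent.H115.AG

open Pool.Agent.W778.AG Pool.Agent.H380.AG

/-- the points of `K` which are seen from infinity in the direction `e` -/
def Lst {n : ℕ} (K : Set (En n)) (e : En n) : Set (En n) := {y | y ∈ K ∧ ∀ t : ℝ, 0 < t → y + t • e ∉ K}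

theorem lst_inj {n m : ℕ} (K : Set (En n)) (e : En n) (p : En n →L[ℝ] En m)
    (hp : ∀ w, p w = 0 → ∃ c : ℝ, w = c • e) : InjOn p (Lst K e) := by
  intro y hy y' hy' h
  have h0 : p (y - y') = 0 := by rw [map_sub, h, sub_self]
  obtain ⟨c, hc⟩ := hp _ h0
  rcases lt_trichotomy c 0 with h1 | h1 | h1
  · exfalso
    apply hy.2 (-c) (neg_pos.2 h1)
    have e1 : y + (-c) • e = y' := by
      rw [neg_smul, ← hc]
      abel
    rw [e1]
    exact hy'.1
  · rw [h1, zero_smul] at hc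
    exact sub_eq_zero.1 hc
  · exfalso
    apply hy'.2 c h1
    have e1 : y' + c • e = y := by
      rw [← hc]
      abel
    rw [e1]
    exact hy.1

theorem lst_meas {n : ℕ} (K : Set (En n)) (hK : IsCompact K) (e : En n) :
    MeasurableSet (Lst K e) := by
  have h1 : Lst K e = K \ ⋃ j : ℕ, (fun q : En n × ℝ => q.1 - q.2 • e) ''
      (K ×ˢ Icc (1 / ((j : ℝ) + 1)) ((j : ℝ) + 1)) := by
    ext y
    constructor
    · rintro ⟨hy, hy2⟩
      refine ⟨hy, ?_⟩
      intro hcon
      obtain ⟨j, ⟨x, t⟩, ⟨hx, ht⟩, hxt⟩ := mem_iUnion.1 hcon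
      have ht0 : 0 < t := lt_of_lt_of_le (by positivity) ht.1
      apply hy2 t ht0
      have e1 : y + t • e = x := by
        rw [← hxt]
        change x - t • e + t • e = x
        abel
      rw [e1]
      exact hx
    · rintro ⟨hy, hy2⟩
      refine ⟨hy, ?_⟩
      intro t ht hcon
      apply hy2
      obtain ⟨j, hj⟩ := exists_nat_ge (max t (1 / t))
      apply mem_iUnion.2
      refine ⟨j, (y + t • e, t), ⟨hcon, ?_, ?_⟩, ?_⟩
      · have h2 : 1 / t ≤ (j : ℝ) + 1 := ((le_max_right _ _).trans hj).trans (by linarith)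
        change 1 / ((j : ℝ) + 1) ≤ t
        rw [div_le_iff₀ (by positivity)]
        rw [div_le_iff₀ ht] at h2
        linarith
      · change t ≤ (j : ℝ) + 1
        linarith [le_max_left t (1 / t)]
      · change y + t • e - t • e = y
        abel
  rw [h1]
  apply hK.isClosed.measurableSet.diff
  apply MeasurableSet.iUnion
  intro j
  apply IsClosed.measurableSet
  apply IsCompact.isClosed
  apply IsCompact.image (hK.prod isCompact_Icc)
  fun_prop

theorem t_SMALL (h1 : S_SLICE) (h2 : S_FROST) (h3 : S_SB) : S_SMALL := by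
  intro n hn K hK hdim α hα0 hαπ
  obtain ⟨k, rfl⟩ : ∃ k, n = k + 1 := ⟨n - 1, by omega⟩
  have hk : 1 ≤ k := by omega
  have e0 : ((k + 1 : ℕ) : ℝ) - 1 = k := by push_cast; ring
  rw [e0] at hdim
  obtain ⟨s, hs0, hs1, hs2⟩ := ENNReal.lt_iff_exists_real_btwn.1 hdim
  have hks : (k : ℝ) < s := (ENNReal.ofReal_lt_ofReal_iff_of_nonneg (Nat.cast_nonneg k)).1 hs1
  have hspos : 0 < s := lt_of_le_of_lt (Nat.cast_nonneg k) hks
  obtain ⟨ν, C', hν, hνK, hC', hfr⟩ := h2 (k + 1) K hK s hspos hs2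
  obtain ⟨P, e₁, e₂, p₁, p₂, C, hP0, hPf, hC, hm1, hm2, hae, hsb⟩ := h3 k α hk hα0 hαπ
  have hA1 := h1 (k + 1) k (En k) inferInstance P p₁ C C' s ν K hPf hm1
    (fun w hw δ hδ => (hsb w hw δ hδ).1) inferInstance hK hνK hks hC hC' hfr
  have hA2 := h1 (k + 1) k (En k) inferInstance P p₂ C C' s ν K hPf hm2
    (fun w hw δ hδ => (hsb w hw δ hδ).2) inferInstance hK hνK hks hC hC' hfr
  have hne : (ae P).NeBot := ae_neBot.2 hP0
  obtain ⟨o, ho1, ho2, ho3, ho4, ho5, ho6, ho7⟩ := (hA1.and (hA2.and hae)).exists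
  have z1 : ν (Lst K (e₁ o)) = 0 := ho1 _ (lst_meas K hK _) (lst_inj K _ _ ho6)
  have z2 : ν (Lst K (e₂ o)) = 0 := ho2 _ (lst_meas K hK _) (lst_inj K _ _ ho7)
  have z3 : ν (Lst K (e₁ o) ∪ Lst K (e₂ o) ∪ Kᶜ) = 0 :=
    measure_union_null (measure_union_null z1 z2) hνK
  obtain ⟨y, hy⟩ : ∃ y, y ∉ (Lst K (e₁ o) ∪ Lst K (e₂ o) ∪ Kᶜ) := by
    by_contra hcon
    push Not at hcon
    have h4 : (Lst K (e₁ o) ∪ Lst K (e₂ o) ∪ Kᶜ) = univ := eq_univ_of_forall hcon
    rw [h4, measure_univ] at z3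
    exact one_ne_zero z3
  simp only [mem_union, not_or, mem_compl_iff, not_not] at hy
  obtain ⟨⟨hy1, hy2⟩, hyK⟩ := hy
  obtain ⟨t, ht, htK⟩ : ∃ t : ℝ, 0 < t ∧ y + t • e₁ o ∈ K := by
    by_contra hcon
    push Not at hcon
    exact hy1 ⟨hyK, hcon⟩
  obtain ⟨r, hr, hrK⟩ : ∃ t : ℝ, 0 < t ∧ y + t • e₂ o ∈ K := by
    by_contra hcon
    push Not at hcon
    exact hy2 ⟨hyK, hcon⟩
  have n1 : e₁ o ≠ 0 := by
    intro h
    rw [h, norm_zero] at ho3
    exact zero_ne_one ho3
  have n2 : e₂ o ≠ 0 := by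
    intro h
    rw [h, norm_zero] at ho4
    exact zero_ne_one ho4
  have hang : EuclideanGeometry.angle (y + t • e₁ o) y (y + r • e₂ o) = α := by
    unfold EuclideanGeometry.angle
    rw [vsub_eq_sub, vsub_eq_sub, add_sub_cancel_left, add_sub_cancel_left,
      InnerProductGeometry.angle_smul_left_of_pos _ _ ht,
      InnerProductGeometry.angle_smul_right_of_pos _ _ hr]
    unfold InnerProductGeometry.angle
    rw [ho3, ho4, ho5, mul_one, div_one, Real.arccos_cos hα0.le hαπ.le]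
  have d1 : y + t • e₁ o ≠ y := by
    intro h
    have h5 : t • e₁ o = 0 := by
      have h6 := congrArg (fun w => w - y) h
      simpa using h6
    rcases smul_eq_zero.1 h5 with h6 | h6
    · exact ht.ne' h6
    · exact n1 h6
  have d2 : y ≠ y + r • e₂ o := by
    intro h
    have h5 : r • e₂ o = 0 := by
      have h6 := congrArg (fun w => w - y) h
      simp only [sub_self, add_sub_cancel_left] at h6
      exact h6.symm
    rcases smul_eq_zero.1 h5 with h6 | h6
    · exact hr.ne' h6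
    · exact n2 h6
  refine ⟨y + t • e₁ o, htK, y, hyK, y + r • e₂ o, hrK, d1, d2, ?_, hang⟩
  intro h
  rw [← h] at hang
  have h5 : EuclideanGeometry.angle (y + t • e₁ o) y (y + t • e₁ o) = 0 := by
    unfold EuclideanGeometry.angle
    apply InnerProductGeometry.angle_self
    rw [vsub_eq_sub]
    exact sub_ne_zero.2 d1
  rw [h5] at hang
  exact hα0.ne hang

end Pool.Agent.H115.AG
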